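import Mathlib

set_option autoImplicit false

namespace Pool.Agent.Results.MP_36bee3_al.NotR0Closed

/-- `X` is a class of finite soluble groups: its members are finite and soluble, it is closed
under isomorphism and it contains the trivial groups. -/
structure IsClass (X : (G : Type) → [Group G] → Prop) : Prop where
  finite : ∀ (G : Type) [Group G], X G → Finite G
  soluble : ∀ (G : Type) [Group G], X G → Group.IsSolvable G
  iso : ∀ (G H : Type) [Group G] [Group H], (G ≃* H) → X G → X H
  trivial : ∀ (G : Type) [Group G] [Subsingleton G], X G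

/-- `X` is `N₀`-closed: every finite soluble group generated by finitely many subnormal
subgroups belonging to `X` belongs to `X`. -/
def N0Closed (X : (G : Type) → [Group G] → Prop) : Prop :=
  ∀ (G : Type) [Group G] [Finite G] [Group.IsSolvable G] (n : ℕ) (N : Fin n → Subgroup G),
    (∀ i, (N i).IsSubnormal) → (∀ i, X (N i)) → (⨆ i, N i) = ⊤ → X G

/-- `X` is `F`-closed: if `G` is a subgroup of a finite soluble group `H` belonging to `X` and
`G / core_H G` is nilpotent, then `G` belongs to `X`. -/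
def FClosed (X : (G : Type) → [Group G] → Prop) : Prop :=
  ∀ (H : Type) [Group H] [Finite H] [Group.IsSolvable H] (G : Subgroup H), X H →
    Group.IsNilpotent (G ⧸ (G.normalCore.subgroupOf G)) → X G

/-- `X` is a Fischer class of finite soluble groups. -/
structure IsFischerClass (X : (G : Type) → [Group G] → Prop) : Prop where
  isClass : IsClass X
  n0 : N0Closed X
  f : FClosed X

/-! ### From binary products to joins of subnormal subgroups -/

section Subnormal

open Subgroup

variable {X : (G : Type) → [Group G] → Prop}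

/-- closure of the join of two mutually normalising subgroups -/
lemma sup_mem
    (hiso : ∀ (G H : Type) [Group G] [Group H], (G ≃* H) → X G → X H)
    (hbin : ∀ (G : Type) [Group G] [Finite G] [Group.IsSolvable G] (N M : Subgroup G)
      [N.Normal] [M.Normal], N ⊔ M = ⊤ → X N → X M → X G)
    {G : Type} [Group G] [Finite G] [Group.IsSolvable G] {S T : Subgroup G}
    (h1 : T ≤ Subgroup.normalizer (S : Set G)) (h2 : S ≤ Subgroup.normalizer (T : Set G))
    (hS : X S) (hT : X T) : X (S ⊔ T : Subgroup G) := by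
  have n1 : (S.subgroupOf (S ⊔ T)).Normal :=
    normal_subgroupOf_of_le_normalizer (sup_le le_normalizer h1)
  have n2 : (T.subgroupOf (S ⊔ T)).Normal :=
    normal_subgroupOf_of_le_normalizer (sup_le h2 le_normalizer)
  apply hbin (↥(S ⊔ T)) (S.subgroupOf (S ⊔ T)) (T.subgroupOf (S ⊔ T))
  · rw [← subgroupOf_sup le_sup_left le_sup_right]
    simp
  · exact hiso _ _ (subgroupOfEquivOfLe le_sup_left).symm hS
  · exact hiso _ _ (subgroupOfEquivOfLe le_sup_right).symm hT

/-- The subgroups of `K` normalised by `K` and belonging to `X`. -/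
def Sub (X : (G : Type) → [Group G] → Prop) {G : Type} [Group G] (K : Subgroup G) :
    Set (Subgroup G) :=
  {S | S ≤ K ∧ K ≤ Subgroup.normalizer (S : Set G) ∧ X S}

lemma exists_greatest
    (htriv : ∀ (G : Type) [Group G] [Subsingleton G], X G)
    (hiso : ∀ (G H : Type) [Group G] [Group H], (G ≃* H) → X G → X H)
    (hbin : ∀ (G : Type) [Group G] [Finite G] [Group.IsSolvable G] (N M : Subgroup G)
      [N.Normal] [M.Normal], N ⊔ M = ⊤ → X N → X M → X G)
    {G : Type} [Group G] [Finite G] [Group.IsSolvable G] (K : Subgroup G) :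
    ∃ R ∈ Sub X K, ∀ S ∈ Sub X K, S ≤ R := by
  have hne : (Sub X K).Nonempty :=
    ⟨⊥, bot_le, by rw [normalizer_eq_top_iff.2 inferInstance]; exact le_top, htriv _⟩
  obtain ⟨R, hR⟩ := (Set.toFinite (Sub X K)).exists_maximal hne
  refine ⟨R, hR.prop, fun S hS => ?_⟩
  have h1 : R ⊔ S ∈ Sub X K := by
    obtain ⟨a1, a2, a3⟩ := hR.prop
    obtain ⟨b1, b2, b3⟩ := hS
    refine ⟨sup_le a1 b1, ?_, sup_mem hiso hbin (b1.trans a2) (a1.trans b2) a3 b3⟩
    exact (le_inf a2 b2).trans (normalizer_inf_normalizer_le_normalizer_sup R S)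
  exact le_sup_right.trans (hR.le_of_ge h1 le_sup_left)

/-- `N₀`-closure follows from closure under products of two normal subgroups. -/
theorem n0_of_binary
    (htriv : ∀ (G : Type) [Group G] [Subsingleton G], X G)
    (hiso : ∀ (G H : Type) [Group G] [Group H], (G ≃* H) → X G → X H)
    (hbin : ∀ (G : Type) [Group G] [Finite G] [Group.IsSolvable G] (N M : Subgroup G)
      [N.Normal] [M.Normal], N ⊔ M = ⊤ → X N → X M → X G) : N0Closed X := by
  intro G _ _ _ n N hN hX htop
  choose R hR hgr using fun K : Subgroup G => exists_greatest htriv hiso hbin K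
  -- the greatest member is normalised by the normaliser
  have hnorm : ∀ K : Subgroup G,
      Subgroup.normalizer (K : Set G) ≤ Subgroup.normalizer (R K : Set G) := by
    intro K
    have key : ∀ g ∈ Subgroup.normalizer (K : Set G),
        (R K).map (MulAut.conj g).toMonoidHom ≤ R K := by
      intro g hg
      apply hgr
      have hg' := mem_normalizer_iff_map_conj_eq.1 hg
      obtain ⟨a1, a2, a3⟩ := hR K
      refine ⟨?_, ?_, ?_⟩
      · calc (R K).map (MulAut.conj g).toMonoidHom ≤ K.map (MulAut.conj g).toMonoidHom :=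
              map_mono a1
          _ = K := hg'
      · calc K = K.map (MulAut.conj g).toMonoidHom := hg'.symm
          _ ≤ (Subgroup.normalizer (R K : Set G)).map (MulAut.conj g).toMonoidHom := map_mono a2
          _ ≤ _ := le_normalizer_map _
      · exact hiso _ _ ((R K).equivMapOfInjective _ (MulAut.conj g).injective) a3
    intro g hg
    rw [mem_normalizer_iff]
    intro h
    constructor
    · intro hh
      exact key g hg ⟨h, hh, rfl⟩
    · intro hh
      have := key g⁻¹ (inv_mem hg) ⟨_, hh, rfl⟩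
      simpa [MulAut.conj_apply, mul_assoc] using this
  have hsub : ∀ K : Subgroup G, K.IsSubnormal → R K ≤ R ⊤ := by
    intro K hK
    induction hK with
    | top => exact le_rfl
    | step H K h_le hSubn hn ih =>
      have h1 : K ≤ Subgroup.normalizer (H : Set G) := (normal_subgroupOf_iff_le_normalizer h_le).1 hn
      have h2 : R H ∈ Sub X K :=
        ⟨(hR H).1.trans h_le, h1.trans (hnorm H), (hR H).2.2⟩
      exact (hgr K _ h2).trans ih
  have h3 : ∀ i, N i ≤ R ⊤ := fun i =>
    (hgr (N i) (N i) ⟨le_rfl, le_normalizer, hX i⟩).trans (hsub _ (hN i))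
  have h4 : R ⊤ = ⊤ := by
    apply top_le_iff.1
    calc (⊤ : Subgroup G) = ⨆ i, N i := htop.symm
      _ ≤ R ⊤ := iSup_le h3
  have h5 : X (R ⊤) := (hR ⊤).2.2
  rw [h4] at h5
  exact hiso _ _ Subgroup.topEquiv h5

end Subnormal

/-! ### Commutator calculus: a relative version of Fitting's theorem -/

section Fitting

open Subgroup

variable {G : Type} [Group G]

lemma sup_comm_eq (A B C : Subgroup G) [A.Normal] [B.Normal] [C.Normal] :
    ⁅A ⊔ B, C⁆ = ⁅A, C⁆ ⊔ ⁅B, C⁆ := by
  apply le_antisymm
  · rw [commutator_le]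
    intro x hx c hc
    obtain ⟨a, ha, b, hb, rfl⟩ : ∃ a ∈ A, ∃ b ∈ B, a * b = x := by
      have : x ∈ ((A ⊔ B : Subgroup G) : Set G) := hx
      rw [mul_normal] at this
      exact this
    rw [commutatorElement_mul_left_eq_conj_mul]
    apply mul_mem
    · have : ⁅B, C⁆.Normal := inferInstance
      exact (le_sup_right : ⁅B, C⁆ ≤ ⁅A, C⁆ ⊔ ⁅B, C⁆)
        (this.conj_mem _ (commutator_mem_commutator hb hc) a)
    · exact (le_sup_left : ⁅A, C⁆ ≤ ⁅A, C⁆ ⊔ ⁅B, C⁆) (commutator_mem_commutator ha hc)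
  · exact sup_le (commutator_mono le_sup_left le_rfl) (commutator_mono le_sup_right le_rfl)

lemma comm_sup_eq (A B C : Subgroup G) [A.Normal] [B.Normal] [C.Normal] :
    ⁅C, A ⊔ B⁆ = ⁅C, A⁆ ⊔ ⁅C, B⁆ := by
  rw [commutator_comm C, sup_comm_eq, commutator_comm A, commutator_comm B]

/-- iterated commutators `[D, S, S, ..., S]` -/
def iter (S D : Subgroup G) : ℕ → Subgroup G
  | 0 => D
  | n + 1 => ⁅iter S D n, S⁆

instance iter_normal (S D : Subgroup G) [S.Normal] [D.Normal] (n : ℕ) : (iter S D n).Normal := by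
  induction n with
  | zero => simpa [iter]
  | succ n ih => rw [iter]; infer_instance

lemma iter_sup (S D E : Subgroup G) [S.Normal] [D.Normal] [E.Normal] (n : ℕ) :
    iter S (D ⊔ E) n = iter S D n ⊔ iter S E n := by
  induction n with
  | zero => rfl
  | succ n ih => rw [iter, ih, sup_comm_eq]; rfl

lemma iter_shift (S D : Subgroup G) (n : ℕ) : iter S ⁅D, S⁆ n = iter S D (n + 1) := by
  induction n with
  | zero => rfl
  | succ n ih => rw [iter, ih]; rfl

lemma iter_self (S : Subgroup G) (n : ℕ) : iter S S n = S.lowerCentralSeries n := by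
  induction n with
  | zero => rfl
  | succ n ih => rw [iter, ih]; rfl

/-- the lower central series with `⊤` prepended -/
def lcs' (N : Subgroup G) : ℕ → Subgroup G
  | 0 => ⊤
  | n + 1 => N.lowerCentralSeries n

instance lcs'_normal (N : Subgroup G) [N.Normal] (n : ℕ) : (lcs' N n).Normal := by
  cases n with
  | zero => rw [lcs']; infer_instance
  | succ n => rw [lcs']; infer_instance

lemma lcs'_comm (N D : Subgroup G) [N.Normal] (i : ℕ) (h : D ≤ lcs' N i) :
    ⁅D, N⁆ ≤ lcs' N (i + 1) := by
  cases i with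
  | zero => exact commutator_le_right _ _
  | succ i => exact commutator_mono h le_rfl

lemma fitting_aux (N M C : Subgroup G) [N.Normal] [M.Normal] (a b : ℕ)
    (ha : N.lowerCentralSeries a ≤ C) (hb : M.lowerCentralSeries b ≤ C) :
    ∀ (s i j : ℕ) (D : Subgroup G) [D.Normal], D ≤ lcs' N i → D ≤ lcs' M j →
      a + b + 1 ≤ i + j + s → iter (N ⊔ M) D s ≤ C := by
  intro s
  induction s with
  | zero =>
    intro i j D _ h1 h2 h3
    rw [iter]
    by_cases hi : a + 1 ≤ i
    · obtain ⟨k, rfl⟩ : ∃ k, i = k + 1 := ⟨i - 1, by omega⟩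
      exact (h1.trans (N.lowerCentralSeries_antitone (by omega : a ≤ k))).trans ha
    · obtain ⟨k, rfl⟩ : ∃ k, j = k + 1 := ⟨j - 1, by omega⟩
      exact (h2.trans (M.lowerCentralSeries_antitone (by omega : b ≤ k))).trans hb
  | succ s ih =>
    intro i j D _ h1 h2 h3
    rw [← iter_shift, comm_sup_eq, iter_sup]
    apply sup_le
    · exact ih (i + 1) j ⁅D, N⁆ (lcs'_comm N D i h1) ((commutator_le_left _ _).trans h2) (by omega)
    · exact ih i (j + 1) ⁅D, M⁆ ((commutator_le_left _ _).trans h1) (lcs'_comm M D j h2) (by omega)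

lemma fitting (N M C : Subgroup G) [N.Normal] [M.Normal] (a b : ℕ)
    (ha : N.lowerCentralSeries a ≤ C) (hb : M.lowerCentralSeries b ≤ C) :
    (N ⊔ M).lowerCentralSeries (a + b) ≤ C := by
  rw [← iter_self, iter_sup]
  apply sup_le
  · exact fitting_aux N M C a b ha hb (a + b) 1 0 N le_rfl le_top (by omega)
  · exact fitting_aux N M C a b ha hb (a + b) 0 1 M le_top le_rfl (by omega)

/-- `Meta2 S C`: the image of `S` modulo `C` is metanilpotent. -/
def Meta2 (S C : Subgroup G) : Prop :=
  ∃ n m : ℕ, (S.lowerCentralSeries n).lowerCentralSeries m ≤ C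

lemma meta2_sup (N M C : Subgroup G) [N.Normal] [M.Normal] (hN : Meta2 N C) (hM : Meta2 M C) :
    Meta2 (N ⊔ M) C := by
  obtain ⟨n, m, h1⟩ := hN
  obtain ⟨n', m', h2⟩ := hM
  have h3 := fitting (N.lowerCentralSeries n) (M.lowerCentralSeries n') C m m' h1 h2
  have h4 := fitting N M (N.lowerCentralSeries n ⊔ M.lowerCentralSeries n') n n'
    le_sup_left le_sup_right
  exact ⟨n + n', m + m', (lowerCentralSeries_mono (m + m') h4).trans h3⟩

lemma Meta2.mono {S C C' : Subgroup G} (h : Meta2 S C) (hC : C ≤ C') : Meta2 S C' := by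
  obtain ⟨n, m, h⟩ := h
  exact ⟨n, m, h.trans hC⟩

lemma Meta2.map {S C : Subgroup G} (h : Meta2 S C) {H : Type} [Group H] (f : G →* H) :
    Meta2 (S.map f) (C.map f) := by
  obtain ⟨n, m, h⟩ := h
  refine ⟨n, m, ?_⟩
  rw [← map_lowerCentralSeries, ← map_lowerCentralSeries]
  exact map_mono h

end Fitting

/-! ### The largest normal subgroup of order prime to `q` -/

section Radical

open Subgroup

/-- the largest normal subgroup of order prime to `q` -/
def Opr (q : ℕ) (G : Type) [Group G] : Subgroup G :=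
  sSup {N | N.Normal ∧ (Nat.card N).Coprime q}

lemma le_Opr {q : ℕ} {G : Type} [Group G] {N : Subgroup G} (h1 : N.Normal)
    (h2 : (Nat.card N).Coprime q) : N ≤ Opr q G := le_sSup ⟨h1, h2⟩

lemma Opr_spec (q : ℕ) (G : Type) [Group G] [Finite G] :
    (Opr q G).Normal ∧ (Nat.card (Opr q G)).Coprime q := by
  have hne : {N : Subgroup G | N.Normal ∧ (Nat.card N).Coprime q}.Nonempty :=
    ⟨⊥, inferInstance, by simp⟩
  obtain ⟨R, hR⟩ := (Set.toFinite _).exists_maximal hne
  have h1 : Opr q G = R := by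
    apply le_antisymm
    · apply sSup_le
      intro N hN
      obtain ⟨a1, a2⟩ := hR.prop
      obtain ⟨b1, b2⟩ := hN
      have h2 : R ⊔ N ∈ {N : Subgroup G | N.Normal ∧ (Nat.card N).Coprime q} := by
        refine ⟨inferInstance, ?_⟩
        have e1 := relIndex_mul_relIndex ⊥ N (R ⊔ N) bot_le le_sup_right
        rw [relIndex_bot_left, relIndex_bot_left, relIndex_sup_right] at e1
        rw [← e1]
        exact Nat.Coprime.mul_left b2 (Nat.Coprime.coprime_dvd_left (relIndex_dvd_card _ _) a2)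
      exact le_sup_right.trans (hR.le_of_ge h2 le_sup_left)
    · exact le_sSup hR.prop
  rw [h1]
  exact hR.prop

instance Opr_normal (q : ℕ) (G : Type) [Group G] [Finite G] : (Opr q G).Normal := (Opr_spec q G).1

lemma Opr_map_equiv (q : ℕ) {G H : Type} [Group G] [Group H] [Finite G] (e : G ≃* H) :
    (Opr q G).map e.toMonoidHom ≤ Opr q H := by
  apply le_Opr
  · exact Normal.map inferInstance _ e.surjective
  · rw [← Nat.card_congr ((Opr q G).equivMapOfInjective e.toMonoidHom e.injective).toEquiv]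
    exact (Opr_spec q G).2

lemma Opr_map_subtype (q : ℕ) {G : Type} [Group G] [Finite G] (N : Subgroup G) [N.Normal] :
    (Opr q N).map N.subtype ≤ Opr q G := by
  have hchar : (Opr q N).Characteristic :=
    characteristic_iff_map_le.2 fun φ => Opr_map_equiv q φ
  apply le_Opr
  · exact ConjAct.normal_of_characteristic_of_normal
  · rw [← Nat.card_congr ((Opr q N).equivMapOfInjective N.subtype N.subtype_injective).toEquiv]
    exact (Opr_spec q N).2

lemma Opr_subgroupOf (q : ℕ) {H : Type} [Group H] [Finite H] (G : Subgroup H) :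
    (Opr q H).subgroupOf G ≤ Opr q G := by
  apply le_Opr
  · infer_instance
  · rw [Nat.card_congr (((Opr q H).subgroupOf G).equivMapOfInjective G.subtype
      G.subtype_injective).toEquiv, subgroupOf_map_subtype]
    exact Nat.Coprime.coprime_dvd_left (card_dvd_of_le inf_le_left) (Opr_spec q H).2

end Radical

/-! ### The class -/

section TheClass

open Subgroup

/-- The class of all finite soluble groups `G` such that `G / (O_{q'}(G) O_{r'}(G))` is
metanilpotent. -/
def Cls (q r : ℕ) (G : Type) [Group G] : Prop :=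
  Finite G ∧ Group.IsSolvable G ∧ Meta2 (⊤ : Subgroup G) (Opr q G ⊔ Opr r G)

variable (q r : ℕ)

lemma cls_triv (G : Type) [Group G] [Subsingleton G] : Cls q r G := by
  refine ⟨inferInstance, inferInstance, 0, 0, ?_⟩
  intro x _
  rw [Subsingleton.elim x 1]
  exact one_mem _

lemma cls_iso (G H : Type) [Group G] [Group H] (e : G ≃* H) (h : Cls q r G) : Cls q r H := by
  obtain ⟨h1, h2, h3⟩ := h
  refine ⟨Finite.of_equiv G e.toEquiv, Group.isSolvable_of_surjective (f := e.toMonoidHom) e.surjective, ?_⟩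
  have h4 := h3.map e.toMonoidHom
  rw [map_top_of_surjective _ e.surjective, Subgroup.map_sup] at h4
  exact h4.mono (sup_le_sup (Opr_map_equiv q e) (Opr_map_equiv r e))

lemma cls_isClass : IsClass (Cls q r) where
  finite := fun _ _ h => h.1
  soluble := fun _ _ h => h.2.1
  iso := cls_iso q r
  trivial := cls_triv q r

lemma cls_binary (G : Type) [Group G] [Finite G] [Group.IsSolvable G] (N M : Subgroup G)
    [N.Normal] [M.Normal] (htop : N ⊔ M = ⊤) (hN : Cls q r N) (hM : Cls q r M) : Cls q r G := by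
  refine ⟨inferInstance, inferInstance, ?_⟩
  have key : ∀ (K : Subgroup G) [K.Normal], Cls q r K → Meta2 K (Opr q G ⊔ Opr r G) := by
    intro K _ hK
    have h1 := hK.2.2.map K.subtype
    rw [← MonoidHom.range_eq_map, range_subtype, Subgroup.map_sup] at h1
    exact h1.mono (sup_le_sup (Opr_map_subtype q K) (Opr_map_subtype r K))
  rw [← htop]
  exact meta2_sup N M _ (key N hN) (key M hM)

lemma cls_n0 : N0Closed (Cls q r) :=
  n0_of_binary (cls_triv q r) (cls_iso q r) (cls_binary q r)

lemma cls_f : FClosed (Cls q r) := by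
  intro H _ _ _ G hH hnil
  refine ⟨inferInstance, inferInstance, ?_⟩
  obtain ⟨-, -, n, m, hnm⟩ := hH
  -- the nilpotent quotient
  obtain ⟨a, ha⟩ := Subgroup.nilpotent_iff_lowerCentralSeries.1 hnil
  have ha' : (⊤ : Subgroup G).lowerCentralSeries a ≤ G.normalCore.subgroupOf G := by
    have h1 : ((⊤ : Subgroup G).lowerCentralSeries a).map
        (QuotientGroup.mk' (G.normalCore.subgroupOf G)) = ⊥ := by
      rw [map_lowerCentralSeries, map_top_of_surjective _ (QuotientGroup.mk'_surjective _), ha]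
    rw [(Subgroup.map_eq_bot_iff _), QuotientGroup.ker_mk'] at h1
    exact h1
  have hGa : G.lowerCentralSeries a ≤ G.normalCore := by
    rw [← top_subtype_lowerCentralSeries]
    calc _ ≤ (G.normalCore.subgroupOf G).map G.subtype := map_mono ha'
      _ ≤ _ := by rw [subgroupOf_map_subtype]; exact inf_le_left
  set P := G.lowerCentralSeries (n + a) with hP
  have hP1 : P ≤ G.normalCore := (G.lowerCentralSeries_antitone (by omega)).trans hGa
  have hP2 : P ≤ (⊤ : Subgroup H).lowerCentralSeries n :=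
    (G.lowerCentralSeries_antitone (by omega : n ≤ n + a)).trans
      (lowerCentralSeries_mono n (le_top : G ≤ ⊤))
  have hPm : P.lowerCentralSeries m ≤ Opr q H ⊔ Opr r H :=
    (lowerCentralSeries_mono m hP2).trans hnm
  have hkey : P.lowerCentralSeries (m + 1) ≤ (Opr q H ⊓ G) ⊔ (Opr r H ⊓ G) := by
    calc P.lowerCentralSeries (m + 1) = ⁅P.lowerCentralSeries m, P⁆ := rfl
      _ ≤ ⁅Opr q H ⊔ Opr r H, G.normalCore⁆ := commutator_mono hPm hP1
      _ = ⁅Opr q H, G.normalCore⁆ ⊔ ⁅Opr r H, G.normalCore⁆ := sup_comm_eq _ _ _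
      _ ≤ (Opr q H ⊓ G.normalCore) ⊔ (Opr r H ⊓ G.normalCore) :=
          sup_le_sup (commutator_le_inf _ _) (commutator_le_inf _ _)
      _ ≤ _ := sup_le_sup (inf_le_inf_left _ (normalCore_le G)) (inf_le_inf_left _ (normalCore_le G))
  refine ⟨n + a, m + 1, ?_⟩
  rw [← map_subtype_le_map_subtype, map_lowerCentralSeries, top_subtype_lowerCentralSeries]
  refine hkey.trans ?_
  rw [← subgroupOf_map_subtype, ← subgroupOf_map_subtype, ← Subgroup.map_sup]
  exact map_mono (sup_le_sup (Opr_subgroupOf q G) (Opr_subgroupOf r G))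

theorem cls_fischer : IsFischerClass (Cls q r) where
  isClass := cls_isClass q r
  n0 := cls_n0 q r
  f := cls_f q r

lemma cls_of_coprime_left (G : Type) [Group G] [Finite G] [Group.IsSolvable G]
    (h : (Nat.card G).Coprime q) : Cls q r G := by
  refine ⟨inferInstance, inferInstance, 0, 0, ?_⟩
  have : (⊤ : Subgroup G) ≤ Opr q G := le_Opr inferInstance (by simpa using h)
  exact this.trans le_sup_left

lemma cls_of_coprime_right (G : Type) [Group G] [Finite G] [Group.IsSolvable G]
    (h : (Nat.card G).Coprime r) : Cls q r G := by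
  refine ⟨inferInstance, inferInstance, 0, 0, ?_⟩
  have : (⊤ : Subgroup G) ≤ Opr r G := le_Opr inferInstance (by simpa using h)
  exact this.trans le_sup_right

end TheClass

/-! ### The symmetric group of degree four -/

section SFour

open Subgroup Equiv Equiv.Perm
open scoped commutatorElement

set_option maxRecDepth 100000 in
lemma v4_mul : ∀ x y : Perm (Fin 4), (sign x = 1 ∧ x * x = 1) → (sign y = 1 ∧ y * y = 1) →
    (sign (x * y) = 1 ∧ x * y * (x * y) = 1) := by
  decide

set_option maxRecDepth 100000 in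
lemma derived_two : ∀ x y : Perm (Fin 4), sign x = 1 → sign y = 1 →
    (x * y * x⁻¹ * y⁻¹) * (x * y * x⁻¹ * y⁻¹) = 1 := by
  decide

set_option maxRecDepth 100000 in
lemma derived_three : ∀ x y : Perm (Fin 4), (sign x = 1 ∧ x * x = 1) →
    (sign y = 1 ∧ y * y = 1) → x * y * x⁻¹ * y⁻¹ = 1 := by
  decide

/-- the normal Klein four group -/
def V4 : Subgroup (Perm (Fin 4)) where
  carrier := {x | sign x = 1 ∧ x * x = 1}
  mul_mem' := by
    intro x y hx hy
    exact v4_mul x y hx hy
  one_mem' := by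
    show sign (1 : Perm (Fin 4)) = 1 ∧ (1 : Perm (Fin 4)) * 1 = 1
    simp
  inv_mem' := by
    intro x hx
    have hx' : sign x = 1 ∧ x * x = 1 := hx
    show sign x⁻¹ = 1 ∧ x⁻¹ * x⁻¹ = 1
    refine ⟨by simp [hx'.1], ?_⟩
    rw [← mul_inv_rev, hx'.2, inv_one]

instance solvable_S4 : Group.IsSolvable (Perm (Fin 4)) := by
  refine ⟨3, ?_⟩
  have h1 : derivedSeries (Perm (Fin 4)) 1 ≤ sign.ker := by
    rw [derivedSeries_succ, commutator_le]
    intro x _ y _
    rw [MonoidHom.mem_ker, map_commutatorElement]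
    exact commutatorElement_eq_one_iff_mul_comm.2 (mul_comm _ _)
  have h2 : derivedSeries (Perm (Fin 4)) 2 ≤ V4 := by
    rw [derivedSeries_succ, commutator_le]
    intro x hx y hy
    have hx' : sign x = 1 := h1 hx
    have hy' : sign y = 1 := h1 hy
    show sign ⁅x, y⁆ = 1 ∧ ⁅x, y⁆ * ⁅x, y⁆ = 1
    refine ⟨?_, ?_⟩
    · rw [commutatorElement_def]; simp [hx', hy']
    · rw [commutatorElement_def]; exact derived_two x y hx' hy'
  rw [eq_bot_iff, derivedSeries_succ, commutator_le]
  intro x hx y hy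
  have hx' : sign x = 1 ∧ x * x = 1 := h2 hx
  have hy' : sign y = 1 ∧ y * y = 1 := h2 hy
  rw [mem_bot, commutatorElement_def]
  exact derived_three x y hx' hy'

/-- two three-cycles and a transposition -/
def c1 : Perm (Fin 4) := swap 0 1 * swap 1 2
def c2 : Perm (Fin 4) := swap 0 1 * swap 1 3
def v1 : Perm (Fin 4) := c1 * c2

lemma perm_facts : ⁅c1, swap 0 1⁆ * ⁅c1, swap 0 1⁆ = c1 ∧ ⁅c2, swap 0 1⁆ * ⁅c2, swap 0 1⁆ = c2 ∧
    ⁅v1, c1⁆ = c1⁻¹ * v1 * c1 ∧ ⁅c1⁻¹ * v1 * c1, c1⁆ = c1 * v1 * c1⁻¹ ∧
    ⁅c1 * v1 * c1⁻¹, c1⁆ = v1 ∧ v1 ≠ 1 := by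
  simp only [commutatorElement_def]
  decide

/-- The symmetric group of degree four is not metanilpotent. -/
lemma not_meta2_S4 : ¬ Meta2 (⊤ : Subgroup (Perm (Fin 4))) ⊥ := by
  rintro ⟨n, m, h⟩
  obtain ⟨f1, f2, f3, f4, f5, f6⟩ := perm_facts
  have hc : ∀ n, c1 ∈ (⊤ : Subgroup (Perm (Fin 4))).lowerCentralSeries n ∧
      c2 ∈ (⊤ : Subgroup (Perm (Fin 4))).lowerCentralSeries n := by
    intro n
    induction n with
    | zero => exact ⟨mem_top _, mem_top _⟩
    | succ n ih =>
      have g1 : ⁅c1, swap 0 1⁆ ∈ (⊤ : Subgroup (Perm (Fin 4))).lowerCentralSeries (n + 1) :=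
        commutator_mem_commutator ih.1 (mem_top _)
      have g2 : ⁅c2, swap 0 1⁆ ∈ (⊤ : Subgroup (Perm (Fin 4))).lowerCentralSeries (n + 1) :=
        commutator_mem_commutator ih.2 (mem_top _)
      refine ⟨?_, ?_⟩
      · rw [← f1]; exact mul_mem g1 g1
      · rw [← f2]; exact mul_mem g2 g2
  set P := (⊤ : Subgroup (Perm (Fin 4))).lowerCentralSeries n with hP
  have hc1 : c1 ∈ P := (hc n).1
  have hc2 : c2 ∈ P := (hc n).2
  have hv : ∀ m, v1 ∈ P.lowerCentralSeries m ∧ c1⁻¹ * v1 * c1 ∈ P.lowerCentralSeries m ∧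
      c1 * v1 * c1⁻¹ ∈ P.lowerCentralSeries m := by
    intro m
    induction m with
    | zero =>
      have hv1 : v1 ∈ P := mul_mem hc1 hc2
      exact ⟨hv1, mul_mem (mul_mem (inv_mem hc1) hv1) hc1, mul_mem (mul_mem hc1 hv1) (inv_mem hc1)⟩
    | succ m ih =>
      obtain ⟨i1, i2, i3⟩ := ih
      refine ⟨?_, ?_, ?_⟩
      · rw [← f5]; exact commutator_mem_commutator i3 hc1
      · rw [← f3]; exact commutator_mem_commutator i1 hc1
      · rw [← f4]; exact commutator_mem_commutator i2 hc1
  exact f6 (mem_bot.1 (h (hv m).1))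

end SFour

/-! ### The group `(C₅ × C₇) ≀ S₄` -/

section Example

open Subgroup SemidirectProduct
open scoped commutatorElement

/-- the wreath product of `D` with the symmetric group `S₄` acting on four points -/
abbrev Wr (D : Type) [Group D] : Type := (Fin 4 → D) ⋊[mulAutArrow] (Equiv.Perm (Fin 4))

instance wr_finite (D : Type) [Group D] [Finite D] : Finite (Wr D) :=
  Finite.of_equiv _ (SemidirectProduct.equivProd (φ := mulAutArrow (G := Equiv.Perm (Fin 4))
    (A := Fin 4) (M := D))).symm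

instance wr_solvable (D : Type) [CommGroup D] : Group.IsSolvable (Wr D) :=
  Group.isSolvable_of_ker_le_range (SemidirectProduct.inl (φ := mulAutArrow
    (G := Equiv.Perm (Fin 4)) (A := Fin 4) (M := D))) SemidirectProduct.rightHom
    (le_of_eq SemidirectProduct.range_inl_eq_ker_rightHom.symm)

lemma wr_card (D : Type) [Group D] : Nat.card (Wr D) = (Nat.card D) ^ 4 * 24 := by
  have h1 : Nat.card (Equiv.Perm (Fin 4)) = 24 := by
    rw [Nat.card_eq_fintype_card, Fintype.card_perm, Fintype.card_fin]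
    rfl
  rw [SemidirectProduct.card, Nat.card_fun, h1]
  simp

/-- functoriality of the wreath product -/
def wrMap {D D' : Type} [Group D] [Group D'] (f : D →* D') : Wr D →* Wr D' :=
  SemidirectProduct.map (MonoidHom.compLeft f (Fin 4)) (MonoidHom.id _) (by
    intro g
    ext x a
    rfl)

lemma wrMap_left {D D' : Type} [Group D] [Group D'] (f : D →* D') (x : Wr D) (i : Fin 4) :
    (wrMap f x).left i = f (x.left i) := rfl

lemma wrMap_right {D D' : Type} [Group D] [Group D'] (f : D →* D') (x : Wr D) :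
    (wrMap f x).right = x.right := rfl

/-- A normal subgroup of `Wr D` of order prime to `q` lies in the base group, as soon as the base
group has a normal `q`-subgroup `A` on which `S₄` acts faithfully. -/
lemma Opr_le_base {D : Type} [CommGroup D] [Finite D] (q : ℕ) (A : Subgroup (Wr D)) [A.Normal]
    (hA : ∀ x ∈ A, x ^ q = 1) (g : D) (hg : g ≠ 1)
    (hgA : ∀ i, (SemidirectProduct.inl (Pi.mulSingle i g) : Wr D) ∈ A) :
    Opr q (Wr D) ≤ (SemidirectProduct.rightHom : Wr D →* Equiv.Perm (Fin 4)).ker := by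
  intro x hx
  have hcomm : ∀ y ∈ A, x * y = y * x := by
    intro y hy
    have h1 : ⁅x, y⁆ ∈ Opr q (Wr D) ⊓ A :=
      commutator_le_inf _ _ (commutator_mem_commutator hx hy)
    have h2 : ⁅x, y⁆ ^ q = 1 := hA _ h1.2
    have h3 : orderOf ⁅x, y⁆ ∣ Nat.card (Opr q (Wr D)) := Subgroup.orderOf_dvd_natCard _ h1.1
    have h4 : orderOf ⁅x, y⁆ ∣ q := orderOf_dvd_of_pow_eq_one h2
    have h5 : orderOf ⁅x, y⁆ = 1 :=
      Nat.eq_one_of_dvd_coprimes (Opr_spec q (Wr D)).2 h3 h4
    exact commutatorElement_eq_one_iff_mul_comm.1 (orderOf_eq_one_iff.1 h5)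
  rw [MonoidHom.mem_ker]
  ext i
  have h1 := hcomm _ (hgA i)
  have h2 := congrArg (fun z : Wr D => z.left (x.right i)) h1
  simp only [SemidirectProduct.mul_left, SemidirectProduct.left_inl, Pi.mul_apply,
    SemidirectProduct.right_inl, map_one, MulAut.one_apply] at h2
  have h3 : (mulAutArrow x.right (Pi.mulSingle i g) : Fin 4 → D) (x.right i) = g := by
    have : (mulAutArrow x.right (Pi.mulSingle i g) : Fin 4 → D) (x.right i) =
      (Pi.mulSingle i g : Fin 4 → D) (x.right.symm (x.right i)) := rfl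
    rw [this, Equiv.symm_apply_apply, Pi.mulSingle_eq_same]
  rw [h3, mul_comm] at h2
  have h4 : (Pi.mulSingle i g : Fin 4 → D) (x.right i) = g := (mul_right_cancel h2).symm
  by_contra hne
  have h5 : x.right i ≠ i := fun h => hne (by
    show ((x.right i : Fin 4) : ℕ) = _
    rw [h]; rfl)
  rw [Pi.mulSingle_eq_of_ne h5] at h4
  exact hg h4.symm

/-- the cyclic groups of orders five and seven -/
abbrev C5 : Type := Multiplicative (ZMod 5)
abbrev C7 : Type := Multiplicative (ZMod 7)

/-- the example: `G = (C₅ × C₇) ≀ S₄` -/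
abbrev Gex : Type := Wr (C5 × C7)

/-- the Sylow 5-subgroup of the base group -/
def M1 : Subgroup Gex := (wrMap (MonoidHom.snd C5 C7)).ker

/-- the Sylow 7-subgroup of the base group -/
def M2 : Subgroup Gex := (wrMap (MonoidHom.fst C5 C7)).ker

instance : M1.Normal := MonoidHom.normal_ker _
instance : M2.Normal := MonoidHom.normal_ker _

lemma pow_left {D : Type} [CommGroup D] (x : Wr D) (hx : x.right = 1) (n : ℕ) :
    (x ^ n).left = x.left ^ n ∧ (x ^ n).right = 1 := by
  induction n with
  | zero => simp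
  | succ n ih =>
    rw [pow_succ, SemidirectProduct.mul_left, SemidirectProduct.mul_right, ih.1, ih.2, hx,
      map_one, MulAut.one_apply, pow_succ]
    simp

lemma mem_M1 (x : Gex) : x ∈ M1 ↔ (∀ i, (x.left i).2 = 1) ∧ x.right = 1 := by
  constructor
  · intro h
    have h' : wrMap (MonoidHom.snd C5 C7) x = 1 := h
    refine ⟨fun i => ?_, ?_⟩
    · exact congrFun (congrArg SemidirectProduct.left h') i
    · exact congrArg SemidirectProduct.right h'
  · rintro ⟨h1, h2⟩
    show wrMap (MonoidHom.snd C5 C7) x = 1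
    apply SemidirectProduct.ext
    · funext i; exact h1 i
    · exact h2

lemma mem_M2 (x : Gex) : x ∈ M2 ↔ (∀ i, (x.left i).1 = 1) ∧ x.right = 1 := by
  constructor
  · intro h
    have h' : wrMap (MonoidHom.fst C5 C7) x = 1 := h
    refine ⟨fun i => ?_, ?_⟩
    · exact congrFun (congrArg SemidirectProduct.left h') i
    · exact congrArg SemidirectProduct.right h'
  · rintro ⟨h1, h2⟩
    show wrMap (MonoidHom.fst C5 C7) x = 1
    apply SemidirectProduct.ext
    · funext i; exact h1 i
    · exact h2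

lemma M1_inf_M2 : M1 ⊓ M2 = ⊥ := by
  rw [eq_bot_iff]
  rintro x ⟨h1, h2⟩
  have h1' := (mem_M1 x).1 h1
  have h2' := (mem_M2 x).1 h2
  rw [mem_bot]
  apply SemidirectProduct.ext
  · funext i
    exact Prod.ext (h2'.1 i) (h1'.1 i)
  · exact h1'.2

lemma M1_pow (x : Gex) (hx : x ∈ M1) : x ^ 5 = 1 := by
  obtain ⟨h1, h2⟩ := (mem_M1 x).1 hx
  obtain ⟨h3, h4⟩ := pow_left x h2 5
  apply SemidirectProduct.ext
  · rw [h3]
    funext i
    apply Prod.ext
    · show (x.left i).1 ^ 5 = 1
      generalize (x.left i).1 = y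
      revert y
      decide
    · show (x.left i).2 ^ 5 = 1
      rw [h1 i, one_pow]
  · exact h4

lemma M2_pow (x : Gex) (hx : x ∈ M2) : x ^ 7 = 1 := by
  obtain ⟨h1, h2⟩ := (mem_M2 x).1 hx
  obtain ⟨h3, h4⟩ := pow_left x h2 7
  apply SemidirectProduct.ext
  · rw [h3]
    funext i
    apply Prod.ext
    · show (x.left i).1 ^ 7 = 1
      rw [h1 i, one_pow]
    · show (x.left i).2 ^ 7 = 1
      generalize (x.left i).2 = y
      revert y
      decide
  · exact h4

lemma card_quot_M1 : (Nat.card (Gex ⧸ M1)).Coprime 5 := by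
  have h1 : Nat.card (Gex ⧸ M1) ∣ Nat.card (Wr C7) :=
    Subgroup.card_dvd_of_injective _ (QuotientGroup.kerLift_injective (wrMap (MonoidHom.snd C5 C7)))
  refine Nat.Coprime.coprime_dvd_left h1 ?_
  rw [wr_card]
  have : Nat.card C7 = 7 := by
    rw [Nat.card_congr (Multiplicative.toAdd : C7 ≃ ZMod 7)]; simp
  rw [this]
  norm_num

lemma card_quot_M2 : (Nat.card (Gex ⧸ M2)).Coprime 7 := by
  have h1 : Nat.card (Gex ⧸ M2) ∣ Nat.card (Wr C5) :=
    Subgroup.card_dvd_of_injective _ (QuotientGroup.kerLift_injective (wrMap (MonoidHom.fst C5 C7)))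
  refine Nat.Coprime.coprime_dvd_left h1 ?_
  rw [wr_card]
  have : Nat.card C5 = 5 := by
    rw [Nat.card_congr (Multiplicative.toAdd : C5 ≃ ZMod 5)]; simp
  rw [this]
  norm_num

lemma not_cls : ¬ Cls 5 7 Gex := by
  rintro ⟨-, -, h⟩
  have h5 : Opr 5 Gex ≤ (SemidirectProduct.rightHom : Gex →* Equiv.Perm (Fin 4)).ker := by
    apply Opr_le_base 5 M1 M1_pow (Multiplicative.ofAdd (1 : ZMod 5), 1) (by decide)
    intro i
    rw [mem_M1]
    refine ⟨fun j => ?_, by simp⟩
    rw [SemidirectProduct.left_inl]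
    by_cases hj : j = i
    · subst hj; simp
    · rw [Pi.mulSingle_eq_of_ne hj]; rfl
  have h7 : Opr 7 Gex ≤ (SemidirectProduct.rightHom : Gex →* Equiv.Perm (Fin 4)).ker := by
    apply Opr_le_base 7 M2 M2_pow (1, Multiplicative.ofAdd (1 : ZMod 7)) (by decide)
    intro i
    rw [mem_M2]
    refine ⟨fun j => ?_, by simp⟩
    rw [SemidirectProduct.left_inl]
    by_cases hj : j = i
    · subst hj; simp
    · rw [Pi.mulSingle_eq_of_ne hj]; rfl
  have h1 := h.map (SemidirectProduct.rightHom : Gex →* Equiv.Perm (Fin 4))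
  rw [map_top_of_surjective _ SemidirectProduct.rightHom_surjective] at h1
  apply not_meta2_S4
  apply h1.mono
  rw [le_bot_iff, Subgroup.map_eq_bot_iff]
  exact sup_le h5 h7

end Example

/-- **Main result.** There is a Fischer class `X` of finite soluble groups which is not closed
under finite subdirect products: there are a finite soluble group `G` not belonging to `X` and
normal subgroups `M₁`, `M₂` of `G` with `M₁ ∩ M₂ = 1` such that `G / M₁` and `G / M₂` belong
to `X`. -/
theorem result : ∃ X : (G : Type) → [Group G] → Prop, IsFischerClass X ∧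
    ∃ (G : Type) (_ : Group G) (M₁ M₂ : Subgroup G) (_ : M₁.Normal) (_ : M₂.Normal),
      Finite G ∧ Group.IsSolvable G ∧ M₁ ⊓ M₂ = ⊥ ∧ X (G ⧸ M₁) ∧ X (G ⧸ M₂) ∧ ¬ X G := by
  refine ⟨Cls 5 7, cls_fischer 5 7, Gex, inferInstance, M1, M2, inferInstance, inferInstance,
    inferInstance, inferInstance, M1_inf_M2, ?_, ?_, not_cls⟩
  · exact cls_of_coprime_left 5 7 _ card_quot_M1
  · exact cls_of_coprime_right 5 7 _ card_quot_M2

end Pool.Agent.Results.MP_36bee3_al.NotR0Closed
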